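import Pool.Agent.Helper31.CloneProj

set_option autoImplicit false

/-!
Operations of the clone that depend continuously on their selection function.
-/

namespace Pool.Agent.Helper82.BM

open Pool.Agent.Helper31.CloneProj

/-- The decoding map used at stage `n` of the embedding. -/
noncomputable def dec (n : ℕ) (v : Fin n → ℕ) : Option ℕ → ℕ := fun o => match o with
  | none => n
  | some y => if h : ∃ m : Fin n, v m = y then (Classical.choose h).1 else 0

lemma dec_le (n : ℕ) (v : Fin n → ℕ) (o : Option ℕ) : dec n v o ≤ n := by
  cases o with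
  | none => exact le_rfl
  | some y =>
    simp only [dec]
    split_ifs with h
    · exact (Classical.choose h).2.le
    · exact Nat.zero_le n

lemma tauAt_eq (q : List ℕ → ZMod 2 × Bool) (n : ℕ) :
    tauAt q n = fun l' => q (l'.map (dec n (fun m => iota q m.1))) := by
  funext l'
  rw [tauAt]
  congr 1

/-- The embedding of a structure at stage `n` depends only on the structure on `{0, ..., n}`. -/
lemma iota_congr (q q' : List ℕ → ZMod 2 × Bool) (n : ℕ)
    (h : ∀ l : List ℕ, (∀ y ∈ l, y ≤ n) → q l = q' l) : iota q n = iota q' n := by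
  induction n using Nat.strong_induction_on with
  | _ n ih =>
    have h1 : (fun m : Fin n => iota q m.1) = (fun m : Fin n => iota q' m.1) := by
      funext m
      exact ih m.1 m.2 (fun l hl => h l (fun y hy => (hl y hy).trans m.2.le))
    have h2 : tauAt q n = tauAt q' n := by
      rw [tauAt_eq, tauAt_eq, h1]
      funext l'
      refine h _ ?_
      intro y hy
      obtain ⟨o, _, rfl⟩ := List.mem_map.1 hy
      exact dec_le n _ o
    have e1 : iota q n = Classical.choose (extension
        (Finset.univ.image (fun m : Fin n => iota q m.1)) (tauAt q n)) := by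
      rw [iota]; rfl
    have e2 : iota q' n = Classical.choose (extension
        (Finset.univ.image (fun m : Fin n => iota q' m.1)) (tauAt q' n)) := by
      rw [iota]; rfl
    rw [e1, e2]
    simp only [h1, h2]

/-- The structure on pairs with selection function `s`. -/
noncomputable def qOp (s : ℕ → Fin 2) (l : List (Fin 2 → ℕ)) : ZMod 2 × Bool :=
  (Lin (Pi.single 0 1) (fun _ => 0) l.length (lev l), (P (l.map (fun u => u (s l.length)))).2)

/-- A code for pairs. -/
noncomputable def cd : (Fin 2 → ℕ) → ℕ :=
  Classical.choose (Countable.exists_injective_nat (Fin 2 → ℕ))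

lemma cd_inj : Function.Injective cd :=
  Classical.choose_spec (Countable.exists_injective_nat (Fin 2 → ℕ))

open Classical in
/-- The structure on the codes. -/
noncomputable def qCode (s : ℕ → Fin 2) (l : List ℕ) : ZMod 2 × Bool :=
  if l.Nodup then qOp s (l.map (Function.invFun cd)) else (0, false)

/-- The operation with selection function `s`. -/
noncomputable def op (s : ℕ → Fin 2) (x : Fin 2 → ℕ) : ℕ := iota (qCode s) (cd x)

lemma op_rep (s : ℕ → Fin 2) (l : List (Fin 2 → ℕ)) (hl : l.Nodup) (hne : l ≠ []) :
    P (l.map (op s)) = qOp s l := by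
  have h1 : l.map (op s) = (l.map cd).map (iota (qCode s)) := by
    rw [List.map_map]
    rfl
  have h2 : (l.map cd).Nodup := hl.map cd_inj
  rw [h1, iota_P _ _ h2 (by simpa using hne), qCode, if_pos h2, List.map_map,
    Function.LeftInverse.comp_eq_id (Function.leftInverse_invFun cd_inj), List.map_id]

lemma op_inC (s : ℕ → Fin 2) :
    InC (op s) (Pi.single 0 1) (fun _ => 0) (fun k _ => s k) := by
  refine ⟨?_, by simp, ?_⟩
  · intro u v huv h
    have h1 := (iota_strictMono (qCode s)).injective h
    exact huv 0 (by rw [cd_inj h1])
  · intro l hl hl0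
    have hnd : l.Nodup := by
      rw [List.Nodup]
      refine hl.imp ?_
      intro u v huv h
      exact huv 0 (by rw [h])
    exact op_rep s l hnd hl0

lemma length_le_of_le (l : List ℕ) (n : ℕ) (hl : l.Nodup) (h : ∀ y ∈ l, y ≤ n) :
    l.length ≤ n + 1 := by
  classical
  rw [← List.toFinset_card_of_nodup hl, ← Finset.card_range (n + 1)]
  refine Finset.card_le_card ?_
  intro y hy
  rw [List.mem_toFinset] at hy
  rw [Finset.mem_range]
  exact Nat.lt_succ_of_le (h y hy)

/-- The value of the operation at `x` depends on finitely many values of `s`. -/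
lemma op_congr (s s' : ℕ → Fin 2) (x : Fin 2 → ℕ) (h : ∀ k ≤ cd x + 1, s k = s' k) :
    op s x = op s' x := by
  refine iota_congr _ _ _ ?_
  intro l hl
  rw [qCode, qCode]
  split_ifs with hnd
  · have hlen := length_le_of_le l _ hnd hl
    rw [qOp, qOp, List.length_map, h _ hlen]
  · rfl

lemma continuous_op : Continuous op := by
  refine continuous_pi (fun x => ?_)
  let r : (ℕ → Fin 2) → (Fin (cd x + 2) → Fin 2) := fun s i => s i.1
  have hr : Continuous r := continuous_pi (fun i => continuous_apply i.1)
  let ψ : (Fin (cd x + 2) → Fin 2) → ℕ := fun v =>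
    op (fun k => if hk : k < cd x + 2 then v ⟨k, hk⟩ else 0) x
  have h1 : (fun s => op s x) = ψ ∘ r := by
    funext s
    refine op_congr _ _ _ ?_
    intro k hk
    have hk' : k < cd x + 2 := by omega
    simp only [r, hk', dif_pos]
  rw [h1]
  exact (continuous_of_discreteTopology (f := ψ)).comp hr

end Pool.Agent.Helper82.BM
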