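import Mathlib

set_option autoImplicit false

/-!
A set of 0-1 sequences which does not change under finite modifications and which is mapped to its
complement by the flip of all coordinates is not measurable.
-/

namespace Pool.Agent.Helper82.BM

open MeasureTheory Filter

lemma sum_single_apply (F : Finset ℕ) (k : ℕ) :
    (∑ j ∈ F, (Pi.single j 1 : ℕ → ZMod 2)) k = if k ∈ F then 1 else 0 := by
  classical
  rw [Finset.sum_apply]
  simp [Pi.single_apply]

theorem not_measurable_of_flip (S : Set (ℕ → ZMod 2)) (hS : MeasurableSet S)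
    (hfin : ∀ (a : ℕ → ZMod 2) (j : ℕ), a + Pi.single j 1 ∈ S ↔ a ∈ S)
    (hflip : ∀ a : ℕ → ZMod 2, a + 1 ∈ S ↔ a ∉ S) : False := by
  classical
  let μ : Measure (ℕ → ZMod 2) := Measure.addHaar
  have hfin' : ∀ (F : Finset ℕ) (a : ℕ → ZMod 2),
      (∑ j ∈ F, (Pi.single j 1 : ℕ → ZMod 2)) + a ∈ S ↔ a ∈ S := by
    intro F
    induction F using Finset.induction_on with
    | empty => intro a; simp
    | insert j F hj ih =>
      intro a
      rw [Finset.sum_insert hj]
      have : Pi.single j 1 + ∑ i ∈ F, (Pi.single i 1 : ℕ → ZMod 2) + a =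
          (∑ i ∈ F, (Pi.single i 1 : ℕ → ZMod 2)) + a + Pi.single j 1 := by ring
      rw [this, hfin, ih]
  have hd : Dense {g : ℕ → ZMod 2 | (g +ᵥ ·) ⁻¹' S = S} := by
    rw [dense_iff_inter_open]
    intro U hU hne
    obtain ⟨x, hx⟩ := hne
    rw [isOpen_pi_iff] at hU
    obtain ⟨I, u, hu, hIU⟩ := hU x hx
    refine ⟨∑ j ∈ I.filter (fun j => x j = 1), (Pi.single j 1 : ℕ → ZMod 2), hIU ?_, ?_⟩
    · intro k hk
      have hk' : k ∈ I := hk
      have : (∑ j ∈ I.filter (fun j => x j = 1), (Pi.single j 1 : ℕ → ZMod 2)) k = x k := by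
        rw [sum_single_apply]
        simp only [Finset.mem_filter, hk', true_and]
        generalize x k = z
        revert z
        decide
      rw [this]
      exact (hu k hk').2
    · ext a
      exact hfin' _ a
  have hconst := aeconst_of_dense_setOfPred_preimage_vadd_eq (μ := μ) hS.nullMeasurableSet hd
  have h1 : μ Sᶜ = μ S := by
    have h2 : (fun a : ℕ → ZMod 2 => a + 1) ⁻¹' S = Sᶜ := by
      ext a
      exact hflip a
    rw [← h2]
    exact measure_preimage_add_right μ 1 S
  rw [eventuallyConst_set'] at hconst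
  have h0 : μ Set.univ ≠ 0 := by
    intro h
    have := (Measure.measure_univ_eq_zero (μ := μ)).1 h
    exact NeZero.ne μ this
  apply h0
  have hsum : μ Set.univ ≤ μ S + μ Sᶜ := by
    rw [← Set.union_compl_self S]
    exact measure_union_le _ _
  rcases hconst with h | h
  · have : μ S = 0 := by
      rw [measure_congr h]
      simp
    rw [h1, this] at hsum
    simpa using hsum
  · have : μ Sᶜ = 0 := by
      have h3 : (Sᶜ : Set (ℕ → ZMod 2)) =ᵐ[μ] (Set.univᶜ : Set (ℕ → ZMod 2)) := h.compl
      rw [measure_congr h3]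
      simp
    rw [← h1, this] at hsum
    simpa using hsum

end Pool.Agent.Helper82.BM
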