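import Pool.Agent.Helper82.BM.Flip
import Pool.Agent.Helper82.BM.Family

set_option autoImplicit false

/-!
No homomorphism of the clone to the projection clone has a Borel measurable binary part.
-/

namespace Pool.Agent.Helper82.BM

open Pool.Agent.Helper31.CloneProj MeasureTheory

variable {ξ : ∀ n : ℕ, ((Fin n → ℕ) → ℕ) → ℕ}

/-- The homomorphism is not given by a fixed level. -/
lemma not_principal (hξ : IsHom ξ) {j : ℕ} {d : (Fin 2 → ℕ) → ℕ}
    (hd : InC d (Pi.single 0 1) (fun _ => 0) (fun k _ => if k = j then 0 else 1)) :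
    ξ 2 d ≠ 0 := by
  intro hd0
  -- the homomorphism depends only on the selection part at level `j`
  have key : ∀ (n : ℕ) (f f' : (Fin n → ℕ) → ℕ) (c c' : Fin n → ZMod 2) (γ γ' : ℕ → ZMod 2)
      (s s' : ℕ → (Fin n → ZMod 2) → Fin n), InC f c γ s → InC f' c' γ' s' →
      (∀ a, s j a = s' j a) → ξ n f = ξ n f' := by
    intro n f f' c c' γ γ' s s' hf hf' hs
    have e := InC.proj (s 0 (fun _ => 0))
    have t1 := hd.comp2 hf e
    have t2 := hd.comp2 hf' e
    have x := hξ.step2 t1 (t2.congr rfl rfl (by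
      funext k a
      by_cases h : k = j
      · subst h
        simp [hs a]
      · simp [h]))
    rw [(hξ.comp2 hd.mem hf.mem e.mem).1 hd0, (hξ.comp2 hd.mem hf'.mem e.mem).1 hd0] at x
    exact x
  -- the choice operation
  obtain ⟨q, -, hq⟩ := exists_inC (n := 3) (Pi.single 0 1) (by simp) (fun _ => 0)
    (fun _ a => if a 0 = 0 then 1 else 2)
  -- the translation
  set γ : ℕ → ZMod 2 := fun x => if x = (Nat.unpair j).1 then 1 else 0 with hγ
  have hhγ : hh j γ = 1 := by
    have : (Nat.unpair j).1 + (Nat.unpair j).2 + 1 ≠ (Nat.unpair j).1 := by omega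
    simp [hh, hγ, this]
  obtain ⟨v, -, hv⟩ := exists_inC (n := 1) (fun _ => 1) (by simp) γ (fun _ _ => 0)
  have e0 : InC (fun x : Fin 3 → ℕ => x 0) _ _ _ := InC.proj 0
  have e1 : InC (fun x : Fin 3 → ℕ => x 1) _ _ _ := InC.proj 1
  have e2 : InC (fun x : Fin 3 → ℕ => x 2) _ _ _ := InC.proj 2
  have d0 : InC (fun x : Fin 2 → ℕ => x 0) _ _ _ := InC.proj 0
  have d1 : InC (fun x : Fin 2 → ℕ => x 1) _ _ _ := InC.proj 1
  have hvv : InC (fun x : Fin 3 → ℕ => v (fun _ => x 0)) (Pi.single 0 1) γ (fun _ _ => 0) := by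
    have h := hv.comp (g := fun _ : Fin 1 => fun x : Fin 3 → ℕ => x 0) (fun _ => e0)
    refine h.congr ?_ ?_ rfl
    · funext i; simp
    · funext i; simp
  have hqlt := hξ.lt 3 q hq.mem
  -- `ξ q ≠ 0`
  have a1 := hq.comp3 d0 d1 d1
  have x1 := key 2 _ _ _ _ _ _ _ _ a1 d1 (by
    intro a
    by_cases h : a 0 = 0 <;> simp [Lin_single, h])
  have y1 := hξ.comp3 hq.mem d0.mem d1.mem d1.mem
  rw [x1, hξ.proj 2 0, hξ.proj 2 1] at y1
  have hq0 : ξ 3 q ≠ 0 := by
    intro h
    simpa using y1.1 h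
  -- the contradiction
  have a2 := hq.comp3 hvv e1 e2
  have a3 := hq.comp3 e0 e2 e1
  have x2 := key 3 _ _ _ _ _ _ _ _ a2 a3 (by
    intro a
    have hL : Lin (Pi.single 0 1) γ j a = a 0 + 1 := by
      simp [Lin, hhγ, Pi.single_apply]
    have hL' : Lin (Pi.single 0 1) (fun _ => 0) j a = a 0 := by
      rw [Lin_single]
    have hz : a 0 = 0 ∨ a 0 = 1 := by
      generalize a 0 = z
      revert z
      decide
    rcases hz with h | h
    · have h10 : (1 : ZMod 2) ≠ 0 := by decide
      simp [hL, hL', h]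
    · have h11 : (1 : ZMod 2) + 1 = 0 := by decide
      simp [hL, hL', h, h11])
  have y2 := hξ.comp3 hq.mem hvv.mem e1.mem e2.mem
  have y3 := hξ.comp3 hq.mem e0.mem e2.mem e1.mem
  rw [x2] at y2
  have z1 := hξ.proj 3 1
  have z2 := hξ.proj 3 2
  rw [z1, z2] at y2 y3
  have : ξ 3 q = 1 ∨ ξ 3 q = 2 := by omega
  rcases this with h | h
  · have u1 := y2.2.1 h
    have u2 := y3.2.1 h
    rw [u1] at u2
    simp at u2
  · have u1 := y2.2.2 h
    have u2 := y3.2.2 h
    rw [u1] at u2
    simp at u2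

/-- The homomorphism does not change if one value of the selection function is changed. -/
lemma finite_change (hξ : IsHom ξ) (s t : ℕ → Fin 2) (j : ℕ) (h : ∀ k, k ≠ j → s k = t k) :
    ξ 2 (op s) = ξ 2 (op t) := by
  have hd := op_inC (fun k => if k = j then 0 else 1)
  have hd1 : ξ 2 (op (fun k => if k = j then 0 else 1)) = 1 := by
    rcases lt_two (hξ.lt 2 _ hd.mem) with h1 | h1
    · exact absurd h1 (not_principal hξ hd)
    · exact h1
  have r := hd.comp2 (op_inC s) (op_inC t)
  have x := hξ.step2 (r.congr rfl rfl (by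
    funext k a
    by_cases hk : k = j
    · simp [hk]
    · simp [hk, h k hk]) : InC _ (Pi.single 0 1) (fun _ => 0) (fun k _ => s k)) (op_inC s)
  rw [(hξ.comp2 hd.mem (op_inC s).mem (op_inC t).mem).2 hd1] at x
  exact x.symm

/-- Exchanging the values of the selection function exchanges the values of the homomorphism. -/
lemma flip_change (hξ : IsHom ξ) (s t : ℕ → Fin 2) (h : ∀ k, t k = if s k = 0 then 1 else 0) :
    ξ 2 (op t) = 0 ↔ ξ 2 (op s) ≠ 0 := by
  have d0 : InC (fun x : Fin 2 → ℕ => x 0) _ _ _ := InC.proj 0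
  have d1 : InC (fun x : Fin 2 → ℕ => x 1) _ _ _ := InC.proj 1
  have r := (op_inC s).comp2 d1 d0
  have x := hξ.step2 (r.congr rfl rfl (by
    funext k a
    exact (h k).symm) : InC _ _ _ (fun k _ => t k)) (op_inC t)
  have y := hξ.comp2 (op_inC s).mem d1.mem d0.mem
  rw [x, hξ.proj 2 0, hξ.proj 2 1] at y
  rcases lt_two (hξ.lt 2 _ (op_inC s).mem) with h1 | h1
  · rw [y.1 h1, h1]
    simp
  · rw [y.2 h1, h1]
    simp

/-- The identification of the two-element group with `Fin 2`. -/
def sel (z : ZMod 2) : Fin 2 := if z = 0 then 0 else 1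

lemma sel_add_one (z : ZMod 2) : sel (z + 1) = if sel z = 0 then 1 else 0 := by
  revert z
  decide

/-- The binary part of a homomorphism is not Borel measurable. -/
theorem not_measurable (hξ : IsHom ξ) :
    ¬ MeasurableSet[borel (C 2)] {f : C 2 | ξ 2 f.1 = 0} := by
  intro hm
  let S : Set (ℕ → ZMod 2) := {a | ξ 2 (op (fun k => sel (a k))) = 0}
  refine not_measurable_of_flip S ?_ ?_ ?_
  · let φ : (ℕ → ZMod 2) → C 2 := fun a => ⟨op (fun k => sel (a k)), (op_inC _).mem⟩
    have hφ : Continuous φ := by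
      refine Continuous.subtype_mk (continuous_op.comp (continuous_pi (fun k => ?_))) _
      exact (continuous_of_discreteTopology (f := sel)).comp (continuous_apply k)
    let _ : MeasurableSpace (C 2) := borel (C 2)
    have _ : BorelSpace (C 2) := ⟨rfl⟩
    exact hφ.measurable hm
  · intro a j
    show ξ 2 _ = 0 ↔ ξ 2 _ = 0
    rw [finite_change hξ _ (fun k => sel (a k)) j (by
      intro k hk
      simp [hk])]
  · intro a
    exact flip_change hξ (fun k => sel (a k)) _ (fun k => sel_add_one (a k))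

end Pool.Agent.Helper82.BM
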